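import Pool.Agent.P8H32.LW.SecVals
import Pool.Agent.N53.CF.All

/-!
# The section conjecture for superelliptic twists by the values of polynomials at the numerators and
# denominators of the convergents of a normal continued fraction

Let `K` be a number field and `f ∈ K[x]` a separable polynomial of degree at least `3`, such that some
element of the Galois group of `K` fixes no root of `f`; this is so for all irreducible `f` (`Admissible`).
For an integer `a ≠ 0` and `n ≥ 1` consider the smooth projective curve with the affine equation

  `a yⁿ = f(x)`;

for different `a` these are twists of each other. The integer `a` has the property `NoSections f a` if for
all `n ≥ 1` which are not coprime to the degree of `f` (for the other `n` there is a rational point at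
infinity)
* the curve has no points over `K`, hence there is no valuation of its function field over `K` with residue
  field `K`;
* the fundamental groups of the curve, of its open subcurves and of all smooth curves over `K` which
  dominate it have no sections over `G_K` (so the section conjecture, also in the valuative form, is true for
  these curves);
and if for all prime numbers `ℓ` which divide the degree of `f` already the geometrically pro-`ℓ` fundamental
group of the curve `a y^ℓ = f(x)` has no section.

The number `α` in `(0, 1)` is continued fraction normal (`CFNormal`) if it is irrational and its orbit
under the Gauss map `x ↦ 1 / x - ⌊1 / x⌋` (`gauss`) is distributed according to the Gauss measure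
`dx / ((1 + x) log 2)`. Let `p_n / q_n = [0; a_1, …, a_n]` be the convergents of `α`; here
`a_(j + 1) = dig α j`, and `cvg (dig α) n = (p_n, q_n)`.

The polynomials `F` in two variables with integral coefficients are those with a simple factor
(`GoodFactor`): `F = H G` over `ℚ`, where `H` is irreducible over the algebraic closure of `ℚ` and does not
divide `G` (`AbsFactor`), for example all absolutely irreducible polynomials as `X ^ 2 + Y ^ 2 + 1` or
`X ^ 5 + Y ^ 3 + X Y`; or `F = (A x_l + B) G`, where `A` and `B` do not contain `x_l` and `G` does not vanish
identically on the curve `x_l = - B / A` (`SimpleFactor`), for example `Y`, `X ^ 2 Y - Y` or `X Y + 1`.

**Theorem.** Let `α` be any continued fraction normal number. There is ONE set `E` of indices of natural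
density zero such that for ALL polynomials `F` with a simple factor, ALL number fields `K` and ALL admissible
`f ∈ K[x]` the integer `a = F (p_n, q_n)` has the property `NoSections f a` for all but finitely many `n ∉ E`.
Almost all real numbers in `(0, 1)` are continued fraction normal.

For example the curves `q_n y ^ m = f(x)` and `(p_n ^ 2 + q_n ^ 2 + 1) y ^ m = f(x)` have neither points nor
sections for all but finitely many `n ∉ E`. Only `O (log X)` of the integers up to `X` occur as twists, `α` is an
arbitrary normal number, and the condition on `α` has nothing to do with the curves.

The fundamental groups are described through valuations as in the starting result
`SolubleSuperellipticTwists`; the definitions are in `Pool/Agent/P8H32/LW/SecDef.lean`.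

Proof. Let `L` be a Galois number field which contains `K` and the roots of `f`, and let `τ` be an
automorphism of `L` over `K` which fixes no root of `f`. For almost all prime numbers `p` with Frobenius
element `τ` there is a prime `v` of `K` with `v ∥ p`, modulo which `f` is separable, of the same degree and
without a root (`supply`). If `p` divides `a` exactly once, then the valuation of `a` at `v` is one, and by the
local theorem of the starting library (helper157 and others: `Pool.Agent.Y157.PS.fineP`, for discrete valuation
rings with finite residue field) the curve has no points and no sections.
The new step is to find such primes for the values `a = F (c)`: for an absolutely irreducible hypersurface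
`H = 0` and ALL large primes `p` the residue classes `c` modulo `p²` with `p` exactly dividing `H (c)` and not
dividing `G (c)` have a density of at least `1 / (4 p)`, see `PolynomialValues`. So the set of the `c` such
that no prime of a given set with Frobenius element `τ` divides `F (c)` exactly once is pronull. By the theorem of the project CF of the starting library (helper53 and others: the
extensions of the Gauss map by the finite groups `GL_2 (ℤ / q)` are ergodic) the convergents of every normal
continued fraction are in a given pronull set only for indices of density zero. There are only countably many polynomials `F` and sets of primes with a given Frobenius element in a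
number field (they are determined by the structure constants of the field and the matrix of `τ`), and a
diagonal argument gives one set `E` for all `F`, all number fields `K` and all `f`.
-/

set_option autoImplicit false

namespace Pool.Agent.Results.MP_896029_ag.ConvergentsOfNormalNumbers

open MeasureTheory Filter Topology
open Pool.Agent.N53.CF (CFNormal cvg)
open Pool.Agent.W811.Stu (gauss dig)
open Pool.Agent.P8H32.LW (badV_null)
open Pool.Agent.P8H32.LW.Sec (GoodSequence goodSequence_of goodQ_of)

theorem result :
    (∀ α : ℝ, CFNormal α → GoodSequence (cvg (dig α))) ∧
    (∀ᵐ α ∂(volume.restrict (Set.Ioo (0 : ℝ) 1)), CFNormal α) :=
  ⟨fun α hα => goodSequence_of fun x => Pool.Agent.N53.CF.main _ (badV_null goodQ_of x) α hα,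
    Pool.Agent.N53.CF.t_TYP⟩

end Pool.Agent.Results.MP_896029_ag.ConvergentsOfNormalNumbers
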