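import Pool.Agent.P8H32.LW.SecVals
import Pool.Agent.N24.RW.All
import Pool.Agent.N24.KM.All

/-!
# The section conjecture for superelliptic twists by the values of polynomials at arbitrary sequences, for
# almost all multipliers

Let `K` be a number field and `f ∈ K[x]` a separable polynomial of degree at least `3`, such that some
element of the Galois group of `K` fixes no root of `f`; this is so for all irreducible `f` (`Admissible`).
For an integer `a ≠ 0` and `n ≥ 1` consider the smooth projective curve with the affine equation

  `a yⁿ = f(x)`;

for different `a` these are twists of each other. The integer `a` has the property `NoSections f a` if for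
all `n ≥ 1` which are not coprime to the degree of `f` (for the other `n` there is a rational point at
infinity)
* the curve has no points over `K`, hence there is no valuation of its function field over `K` with residue
  field `K`;
* the fundamental groups of the curve, of its open subcurves and of all smooth curves over `K` which
  dominate it have no sections over `G_K` (so the section conjecture, also in the valuative form, is true for
  these curves);
and if for all prime numbers `ℓ` which divide the degree of `f` already the geometrically pro-`ℓ` fundamental
group of the curve `a y^ℓ = f(x)` has no section.

The twists are by `a = F (c)`, where `F` is ANY polynomial in any number of variables with integral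
coefficients which has a simple factor (`GoodFactor`): `F = H G` over `ℚ`, where `H` is irreducible over the
algebraic closure of `ℚ` and does not divide `G` (`AbsFactor`), or `F = (A x_l + B) G`, where `A` and `B` do
not contain `x_l` and `G` does not vanish identically on `x_l = - B / A` (`SimpleFactor`). For example `F` can
be any polynomial which is itself irreducible over the algebraic closure of `ℚ`, as a nondegenerate
quadratic form in three or more variables, or a form in three or more variables which defines a smooth
projective hypersurface.

A sequence `c_0, c_1, …` of vectors in `ℤ ^ ι` (`ι` a finite set) is called good (`GoodSequence`) if there is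
ONE set `E` of indices of natural density zero, such that for ALL such polynomials `F`, ALL number fields `K`
and ALL admissible `f ∈ K[x]` the integer `a = F (c_n)` has the property `NoSections f a`, for all but finitely
many `n ∉ E`.

**Theorem.**
1. Let `f_{i,0}, f_{i,1}, …` (`i ∈ ι`) be functions which satisfy the hypothesis of Koksma's theorem on
   `[a_i, b_i]` (`Koksma`). Then `c_n = (⌊f_{i,n}(α_i)⌋)_i` is good for almost all `α` with
   `a_i ≤ α_i ≤ b_i`.
2. Let `a_{i,0}, a_{i,1}, …` (`i ∈ ι`) be ANY sequences of real numbers with mutual distances at least
   `δ > 0`, for example any sequences of different integers (`n!`, `2 ^ n`, any enumeration of any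
   infinite set of integers or of primes), and possibly all the same. Then `c_n = (⌊a_{i,n} α_i⌋)_i` is
   good for almost all `α`.
3. Let `k_0, k_1, …` be ANY sequence of different natural numbers, and `ξ_i ≠ 0`. Then
   `c_n = (⌊ξ_i α_i ^ k_n⌋)_i` is good for almost all `α` with all `α_i > 1`.

For example for almost all pairs `(α, β)` the curves `(⌊n! α⌋² + ⌊n! β⌋² + 1) y² = x⁶ + x + 1` have neither points
nor sections over any given number field `K` over which `x⁶ + x + 1` is irreducible, apart from a set of `n` of
density zero, which does not depend on `K`, and finitely many more.

The fundamental groups are described through valuations as in the starting result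
`SolubleSuperellipticTwists`; the definitions are in `Pool/Agent/P8H32/LW/SecDef.lean`.

Proof. Let `L` be a Galois number field which contains `K` and the roots of `f`, and let `τ` be an
automorphism of `L` over `K` which fixes no root of `f`. For almost all prime numbers `p` with Frobenius
element `τ` there is a prime `v` of `K` with `v ∥ p`, modulo which `f` is separable, of the same degree and
without a root (`supply`). If `p` divides `a` exactly once, then the valuation of `a` at `v` is one, and by the
local theorem of the starting library (helper157 and others: `Pool.Agent.Y157.PS.fineP`, for discrete valuation
rings with finite residue field) the curve has no points and no sections.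
The new step is to find such primes for the values `a = F (c)`: for an absolutely irreducible hypersurface
`H = 0` and ALL large primes `p` the residue classes `c` modulo `p²` with `p` exactly dividing `H (c)` and not
dividing `G (c)` have a density of at least `1 / (4 p)`, see `PolynomialValues`. So the set of the `c` such
that no prime of a given set with Frobenius element `τ` divides `F (c)` exactly once is pronull. By the theorem of Koksma in several variables (project KM of the starting library)
almost all metric sequences are in a given pronull set only for indices of density zero. There are only countably many polynomials `F` and sets of primes with a given Frobenius element in a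
number field (they are determined by the structure constants of the field and the matrix of `τ`), and a
diagonal argument gives one set `E` for all `F`, all number fields `K` and all `f`.
-/

set_option autoImplicit false

namespace Pool.Agent.Results.MP_896029_ag.MetricSequences

open MeasureTheory Filter Topology
open Pool.Agent.P8H32.LW (DatV BadV badV_null frobSets)
open Pool.Agent.P8H32.LW.Sec (GoodSequence goodSequence_of goodQ goodQ_of)
open Pool.Agent.N24.KM (Koksma)

theorem result (ι : Type) [Fintype ι] :
    (∀ (a b : ι → ℝ) (f : ι → ℕ → ℝ → ℝ), (∀ i, a i < b i) → (∀ i, Koksma (a i) (b i) (f i)) →
      ∀ᵐ α : ι → ℝ, (∀ i, α i ∈ Set.Icc (a i) (b i)) → GoodSequence (fun n i => ⌊f i n (α i)⌋)) ∧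
    (∀ (a : ι → ℕ → ℝ) (δ : ℝ), 0 < δ → (∀ i m n, m ≠ n → δ ≤ |a i m - a i n|) →
      ∀ᵐ α : ι → ℝ, GoodSequence (fun n i => ⌊a i n * α i⌋)) ∧
    (∀ (k : ℕ → ℕ) (ξ : ι → ℝ), Function.Injective k → (∀ i, ξ i ≠ 0) →
      ∀ᵐ α : ι → ℝ, (∀ i, 1 < α i) → GoodSequence (fun n i => ⌊ξ i * α i ^ k n⌋)) :=
  Pool.Agent.N18.KM.parts Pool.Agent.N24.KM.main (κ := DatV ι frobSets) (BadV goodQ)
    (fun x => badV_null goodQ_of x) GoodSequence fun _ hc => goodSequence_of hc

end Pool.Agent.Results.MP_896029_ag.MetricSequences
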