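import Pool.Agent.P8H32.LW.SecVals

/-!
# The section conjecture for superelliptic twists by the values of polynomials in several variables: the
# exceptional arguments are pronull

Let `K` be a number field and `f ∈ K[x]` a separable polynomial of degree at least `3`, such that some
element of the Galois group of `K` fixes no root of `f`; this is so for all irreducible `f` (`Admissible`).
For an integer `a ≠ 0` and `n ≥ 1` consider the smooth projective curve with the affine equation

  `a yⁿ = f(x)`;

for different `a` these are twists of each other. The integer `a` has the property `NoSections f a` if for
all `n ≥ 1` which are not coprime to the degree of `f` (for the other `n` there is a rational point at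
infinity)
* the curve has no points over `K`, hence there is no valuation of its function field over `K` with residue
  field `K`;
* the fundamental groups of the curve, of its open subcurves and of all smooth curves over `K` which
  dominate it have no sections over `G_K` (so the section conjecture, also in the valuative form, is true for
  these curves);
and if for all prime numbers `ℓ` which divide the degree of `f` already the geometrically pro-`ℓ` fundamental
group of the curve `a y^ℓ = f(x)` has no section.

The twists are by `a = F (c)`, where `F` is ANY polynomial in any number of variables with integral
coefficients which has a simple factor (`GoodFactor`): `F = H G` over `ℚ`, where `H` is irreducible over the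
algebraic closure of `ℚ` and does not divide `G` (`AbsFactor`), or `F = (A x_l + B) G`, where `A` and `B` do
not contain `x_l` and `G` does not vanish identically on `x_l = - B / A` (`SimpleFactor`). For example `F` can
be any polynomial which is itself irreducible over the algebraic closure of `ℚ`, as a nondegenerate
quadratic form in three or more variables, or a form in three or more variables which defines a smooth
projective hypersurface.

**Theorem.** For every number field `K`, every admissible `f ∈ K[x]` and every such `F` the set of the vectors
`c ∈ ℤ^ι` for which `a = F (c)` does not have the property `NoSections f a` is pronull (`ProNull`): its closure
in the product of the `ℤ_p^ι`, `p` not dividing `M`, has Haar measure zero, for all `M`. In other words: for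
every `M > 0` and `ε > 0` there is a `q` prime to `M` such that these vectors are in at most `ε q ^ |ι|`
residue classes modulo `q`. In particular `a = F (c)` has the property for 100% of the vectors `c` in the boxes
`|c_i| ≤ X`, although the integers of the form `F (c)` are in general a set of density zero.

The fundamental groups are described through valuations as in the starting result
`SolubleSuperellipticTwists`; the definitions are in `Pool/Agent/P8H32/LW/SecDef.lean`.

The starting results `MP_2f3286_ag.QuadraticTwists` and `MP_e66f84_ag.SuperellipticTwists` treat 100% of all
twists `a` (the case `F = x`), `MP_896029_ag.SolubleSuperellipticTwists` 100% of the everywhere locally soluble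
twists. Here `a` is a value of a polynomial, the hypersurface `H = 0` can be of general type, and nothing is
known about its rational points.

Proof. Let `L` be a Galois number field which contains `K` and the roots of `f`, and let `τ` be an
automorphism of `L` over `K` which fixes no root of `f`. For almost all prime numbers `p` with Frobenius
element `τ` there is a prime `v` of `K` with `v ∥ p`, modulo which `f` is separable, of the same degree and
without a root (`supply`). If `p` divides `a` exactly once, then the valuation of `a` at `v` is one, and by the
local theorem of the starting library (helper157 and others: `Pool.Agent.Y157.PS.fineP`, for discrete valuation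
rings with finite residue field) the curve has no points and no sections.
The new step is to find such primes for the values `a = F (c)`: for an absolutely irreducible hypersurface
`H = 0` and ALL large primes `p` the residue classes `c` modulo `p²` with `p` exactly dividing `H (c)` and not
dividing `G (c)` have a density of at least `1 / (4 p)`. The theorem of Landau, Lang and Weil of the starting
library gives `|Hom(R, 𝔽_p)| = p^s |Hom(𝓞_N, 𝔽_p)| + O(p^(s - 1/2))` for the integral model `R` of the
function field, with a number field `N` which it does not identify; the primes with Frobenius element `τ`
and those with a factor of degree one in `N` could be disjoint. For absolutely irreducible `H` the field `N`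
is `ℚ`: if `N ≠ ℚ`, let `M` be a number field with two different embeddings of `N`; the function field of
`H = 0` over `M` has an integral model `R'` with a field `N'`, and `Hom(𝓞_M, 𝔽_p) × Hom(R, 𝔽_p)` maps
injectively to `Hom(R', 𝔽_p)`, hence `2 |Hom(𝓞_M, 𝔽_p)| ≤ |Hom(𝓞_M, 𝔽_p)| |Hom(𝓞_N, 𝔽_p)| ≤ |Hom(𝓞_N', 𝔽_p)|`
for all large `p`, but both `|Hom(𝓞_M, 𝔽_p)|` and `|Hom(𝓞_N', 𝔽_p)|` have the mean value one (prime ideal
theorem). Then the local criterion for pronull sets of the starting library applies.
-/

set_option autoImplicit false

namespace Pool.Agent.Results.MP_896029_ag.PolynomialValues

open Polynomial
open Pool.Agent.N24.RW (ProNull)
open Pool.Agent.P8H32.LW (GoodFactor)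
open Pool.Agent.P8H32.LW.Sec (Admissible NoSections sec_null)

theorem result (K : Type) [Field K] [NumberField K] (f : K[X]) (hf : Admissible f) (ι : Type)
    [Fintype ι] (F : MvPolynomial ι ℤ) (hF : GoodFactor F) :
    ProNull {c : ι → ℤ | ¬ NoSections f (MvPolynomial.eval c F)} :=
  sec_null hf hF

end Pool.Agent.Results.MP_896029_ag.PolynomialValues
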