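import Pool.Agent.P8H32.LW.SecVals
import Pool.Agent.N24.RW.All

/-!
# The section conjecture for superelliptic twists by the values of polynomials at random orbits of thin
# groups: one exceptional set of times for all number fields and all curves

Let `K` be a number field and `f ∈ K[x]` a separable polynomial of degree at least `3`, such that some
element of the Galois group of `K` fixes no root of `f`; this is so for all irreducible `f` (`Admissible`).
For an integer `a ≠ 0` and `n ≥ 1` consider the smooth projective curve with the affine equation

  `a yⁿ = f(x)`;

for different `a` these are twists of each other. The integer `a` has the property `NoSections f a` if for
all `n ≥ 1` which are not coprime to the degree of `f` (for the other `n` there is a rational point at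
infinity)
* the curve has no points over `K`, hence there is no valuation of its function field over `K` with residue
  field `K`;
* the fundamental groups of the curve, of its open subcurves and of all smooth curves over `K` which
  dominate it have no sections over `G_K` (so the section conjecture, also in the valuative form, is true for
  these curves);
and if for all prime numbers `ℓ` which divide the degree of `f` already the geometrically pro-`ℓ` fundamental
group of the curve `a y^ℓ = f(x)` has no section.

The twists are by `a = F (c)`, where `F` is ANY polynomial in any number of variables with integral
coefficients which has a simple factor (`GoodFactor`): `F = H G` over `ℚ`, where `H` is irreducible over the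
algebraic closure of `ℚ` and does not divide `G` (`AbsFactor`), or `F = (A x_l + B) G`, where `A` and `B` do
not contain `x_l` and `G` does not vanish identically on `x_l = - B / A` (`SimpleFactor`). For example `F` can
be any polynomial which is itself irreducible over the algebraic closure of `ℚ`, as a nondegenerate
quadratic form in three or more variables, or a form in three or more variables which defines a smooth
projective hypersurface.

**Theorem.** Let `W` be a finite family `s_0, …, s_M` of matrices in `SL_r(ℤ)`, `r ≥ 2`, which generates
`SL_r(ℤ/q)` for all `q` prime to some `q₀` (by strong approximation this is so for every finite set of matrices
which generates a Zariski dense subgroup, for example a thin one), let `w 0, w 1, …` be independent uniformly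
distributed indices, and `c_t = s_(w (t-1)) ⋯ s_(w 0) v` (`orb`). For almost every word `w` and every vector
`v ≠ 0` there is ONE set `E` of times of density zero such that for ALL such polynomials `F`, ALL number fields
`K` and ALL admissible `f ∈ K[x]` the integer `a = F (c_t)` has the property `NoSections f a` for all but
finitely many `t` outside `E` (`GoodSequence`).

The fundamental groups are described through valuations as in the starting result
`SolubleSuperellipticTwists`; the definitions are in `Pool/Agent/P8H32/LW/SecDef.lean`.

The starting result `MP_e66f84_ag.RandomOrbits` treats curves `c_0 y ^ n = c_1 + c_2 x + … + c_{d+1} x ^ d` whose
coefficients are linear forms in the coordinates of a random orbit. Here `f` is fixed, and the twist is by the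
value of an arbitrary polynomial with a simple factor, for example of an indefinite ternary form; and the
exceptional set of times does not depend on `K`, `f` or `F`.

Proof. Let `L` be a Galois number field which contains `K` and the roots of `f`, and let `τ` be an
automorphism of `L` over `K` which fixes no root of `f`. For almost all prime numbers `p` with Frobenius
element `τ` there is a prime `v` of `K` with `v ∥ p`, modulo which `f` is separable, of the same degree and
without a root (`supply`). If `p` divides `a` exactly once, then the valuation of `a` at `v` is one, and by the
local theorem of the starting library (helper157 and others: `Pool.Agent.Y157.PS.fineP`, for discrete valuation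
rings with finite residue field) the curve has no points and no sections.
The new step is to find such primes for the values `a = F (c)`: for an absolutely irreducible hypersurface
`H = 0` and ALL large primes `p` the residue classes `c` modulo `p²` with `p` exactly dividing `H (c)` and not
dividing `G (c)` have a density of at least `1 / (4 p)`, see `PolynomialValues`. So the set of the `c` such
that no prime of a given set with Frobenius element `τ` divides `F (c)` exactly once is pronull. Random orbits are in pronull sets only at times of density zero (starting library). There are only countably many polynomials `F` and sets of primes with a given Frobenius element in a
number field (they are determined by the structure constants of the field and the matrix of `τ`), and a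
diagonal argument gives one set `E` for all `F`, all number fields `K` and all `f`.
-/

set_option autoImplicit false

namespace Pool.Agent.Results.MP_896029_ag.RandomOrbits

open MeasureTheory Filter Topology
open Pool.Agent.N24.RW
open Pool.Agent.P8H32.LW (DatV BadV badV_null frobSets)
open Pool.Agent.P8H32.LW.Sec (GoodSequence goodSequence_of goodQ goodQ_of)

theorem result (ι : Type) [Fintype ι] [DecidableEq ι] (hι : 2 ≤ Fintype.card ι) (W : Walk ι) :
    ∀ᵐ w ∂(words W.m), ∀ v : ι → ℤ, v ≠ 0 → GoodSequence (orb W v w) := by
  refine ae_all_iff.2 fun v => ?_
  by_cases hv : v = 0
  · exact ae_of_all _ fun w h => absurd hv h
  have h1 : ∀ᵐ w ∂(words W.m), ∀ x : DatV ι frobSets,
      Pool.Agent.N24.KM.Rarely (orb W v w) (BadV goodQ x) :=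
    ae_all_iff.2 fun x => main ι hι W v hv _ (badV_null goodQ_of x)
  filter_upwards [h1] with w hw _
  exact goodSequence_of hw

end Pool.Agent.Results.MP_896029_ag.RandomOrbits
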